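import Mathlib
import Pool.Agent.X251.PC.CaseA
import Pool.Agent.X251.PC.CaseB
import Pool.Agent.X251.PC.CaseC

/-!
# A chordal-deletion clique in graphs without induced `P4 + P1` and `C4` (MP_e9ad42_co, Q1)

The answer to the question is yes: in every `{P4 + P1, C4}`-free graph some clique meets all induced
cycles of length at least four. The clique is empty or the set of all common neighbours of two
nonadjacent vertices. The graph may be infinite.

Proof. Induced cycles have length five or six. If `d` is an induced cycle of length six, then the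
common neighbours of `d 5` and `d 1` meet every induced cycle. If there is no such cycle and `c` is an
induced cycle of length five, then the common neighbours of `c 4` and `c 1`, or those of `c 0` and
`c 2`, meet every induced cycle. Otherwise there would be a configuration of at most fifteen
vertices, which is refuted by unit propagation (files `Pool/Agent/X251/PC`), checked by the kernel.
-/

set_option autoImplicit false

open SimpleGraph Pool.Agent.X251.PC

namespace Pool.Agent.Results.MP_e9ad42_co.ChordalDeletionClique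

universe u

section
variable {V : Type u} (G : SimpleGraph V)

/-- equal or adjacent -/
def R (a b : V) : Prop := a = b ∨ G.Adj a b

/-- `c 0, ..., c (n - 1)` is an induced cycle -/
def Hole (c : ℕ → V) (n : ℕ) : Prop :=
  ∀ x y, x < y → y < n → (R G (c x) (c y) ↔ (y = x + 1 ∨ (x = 0 ∧ y = n - 1)))

variable {G}

theorem R.symm {a b : V} (h : R G a b) : R G b a := by
  rcases h with h | h
  · exact Or.inl h.symm
  · exact Or.inr h.symm

theorem nR {a b : V} (h : ¬ R G a b) : a ≠ b ∧ ¬ G.Adj a b := by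
  unfold R at h
  push Not at h
  exact h

theorem R.adj {a b : V} (h : R G a b) (hne : a ≠ b) : G.Adj a b := by
  rcases h with h | h
  · exact absurd h hne
  · exact h

theorem emb {n : ℕ} (H : SimpleGraph (Fin n)) (p : Fin n → V)
    (h : ∀ i j, i < j → p i ≠ p j ∧ (G.Adj (p i) (p j) ↔ H.Adj i j)) : Nonempty (H ↪g G) := by
  refine ⟨⟨⟨p, ?_⟩, ?_⟩⟩
  · intro i j hij
    rcases lt_trichotomy i j with h1 | h1 | h1
    · exact absurd hij (h i j h1).1
    · exact h1
    · exact absurd hij.symm (h j i h1).1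
  · intro i j
    show G.Adj (p i) (p j) ↔ H.Adj i j
    rcases lt_trichotomy i j with h1 | h1 | h1
    · exact (h i j h1).2
    · subst h1; simp
    · rw [G.adj_comm, H.adj_comm]; exact (h j i h1).2

theorem ne_of {a b c : V} (h1 : R G a c) (h2 : ¬ R G b c) : a ≠ b := by
  rintro rfl; exact h2 h1

theorem ne_of' {a b c : V} (h1 : R G c a) (h2 : ¬ R G c b) : a ≠ b := by
  rintro rfl; exact h2 h1

theorem f4 (h : IsEmpty (cycleGraph 4 ↪g G)) (a b c d : V) (k1 : R G a b) (k2 : R G b c)
    (k3 : R G c d) (k4 : R G d a) (k5 : ¬ R G a c) (k6 : ¬ R G b d) : False := by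
  have ab : a ≠ b := by rintro rfl; exact k5 k2
  have bc : b ≠ c := by rintro rfl; exact k5 k1
  have cd : c ≠ d := by rintro rfl; exact k6 k2
  have da : d ≠ a := by rintro rfl; exact k5 k3.symm
  obtain ⟨e⟩ := emb (G := G) (cycleGraph 4) ![a, b, c, d] (by
    intro i j hij
    fin_cases i <;> fin_cases j <;> first
      | exact absurd hij (by decide)
      | exact ⟨ab, ⟨fun _ => by decide, fun _ => k1.adj ab⟩⟩
      | exact ⟨(nR k5).1, ⟨fun h => absurd h (nR k5).2, fun h => absurd h (by decide)⟩⟩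
      | exact ⟨da.symm, ⟨fun _ => by decide, fun _ => (k4.adj da).symm⟩⟩
      | exact ⟨bc, ⟨fun _ => by decide, fun _ => k2.adj bc⟩⟩
      | exact ⟨(nR k6).1, ⟨fun h => absurd h (nR k6).2, fun h => absurd h (by decide)⟩⟩
      | exact ⟨cd, ⟨fun _ => by decide, fun _ => k3.adj cd⟩⟩)
  exact h.elim e

theorem f6 (h : IsEmpty (cycleGraph 6 ↪g G)) (a b c d e f : V) (k1 : R G a b) (k2 : R G b c)
    (k3 : R G c d) (k4 : R G d e) (k5 : R G e f) (k6 : R G f a) (m1 : ¬ R G a c) (m2 : ¬ R G a d)
    (m3 : ¬ R G a e) (m4 : ¬ R G b d) (m5 : ¬ R G b e) (m6 : ¬ R G b f) (m7 : ¬ R G c e)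
    (m8 : ¬ R G c f) (m9 : ¬ R G d f) : False := by
  have ab : a ≠ b := by rintro rfl; exact m1 k2
  have bc : b ≠ c := by rintro rfl; exact m1 k1
  have cd : c ≠ d := by rintro rfl; exact m4 k2
  have de : d ≠ e := by rintro rfl; exact m7 k3
  have ef : e ≠ f := by rintro rfl; exact m9 k4
  have fa : f ≠ a := by rintro rfl; exact m3 k5.symm
  obtain ⟨e⟩ := emb (G := G) (cycleGraph 6) ![a, b, c, d, e, f] (by
    intro i j hij
    fin_cases i <;> fin_cases j <;> first
      | exact absurd hij (by decide)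
      | exact ⟨ab, ⟨fun _ => by decide, fun _ => k1.adj ab⟩⟩
      | exact ⟨bc, ⟨fun _ => by decide, fun _ => k2.adj bc⟩⟩
      | exact ⟨cd, ⟨fun _ => by decide, fun _ => k3.adj cd⟩⟩
      | exact ⟨de, ⟨fun _ => by decide, fun _ => k4.adj de⟩⟩
      | exact ⟨ef, ⟨fun _ => by decide, fun _ => k5.adj ef⟩⟩
      | exact ⟨fa.symm, ⟨fun _ => by decide, fun _ => (k6.adj fa).symm⟩⟩
      | exact ⟨(nR m1).1, ⟨fun h => absurd h (nR m1).2, fun h => absurd h (by decide)⟩⟩
      | exact ⟨(nR m2).1, ⟨fun h => absurd h (nR m2).2, fun h => absurd h (by decide)⟩⟩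
      | exact ⟨(nR m3).1, ⟨fun h => absurd h (nR m3).2, fun h => absurd h (by decide)⟩⟩
      | exact ⟨(nR m4).1, ⟨fun h => absurd h (nR m4).2, fun h => absurd h (by decide)⟩⟩
      | exact ⟨(nR m5).1, ⟨fun h => absurd h (nR m5).2, fun h => absurd h (by decide)⟩⟩
      | exact ⟨(nR m6).1, ⟨fun h => absurd h (nR m6).2, fun h => absurd h (by decide)⟩⟩
      | exact ⟨(nR m7).1, ⟨fun h => absurd h (nR m7).2, fun h => absurd h (by decide)⟩⟩
      | exact ⟨(nR m8).1, ⟨fun h => absurd h (nR m8).2, fun h => absurd h (by decide)⟩⟩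
      | exact ⟨(nR m9).1, ⟨fun h => absurd h (nR m9).2, fun h => absurd h (by decide)⟩⟩)
  exact h.elim e

theorem fp (h : IsEmpty ((pathGraph 4 ⊕g pathGraph 1) ↪g G)) (a b c d e : V) (k1 : R G a b)
    (k2 : R G b c) (k3 : R G c d) (m1 : ¬ R G a c) (m2 : ¬ R G a d) (m3 : ¬ R G b d)
    (m4 : ¬ R G e a) (m5 : ¬ R G e b) (m6 : ¬ R G e c) (m7 : ¬ R G e d) : False := by
  have ab : a ≠ b := by rintro rfl; exact m1 k2
  have bc : b ≠ c := by rintro rfl; exact m1 k1
  have cd : c ≠ d := by rintro rfl; exact m3 k2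
  have H4 : ∀ i j : Fin 4, i < j → ![a, b, c, d] i ≠ ![a, b, c, d] j ∧
      (G.Adj (![a, b, c, d] i) (![a, b, c, d] j) ↔ (pathGraph 4).Adj i j) := by
    intro i j hij
    fin_cases i <;> fin_cases j <;> first
      | exact absurd hij (by decide)
      | exact ⟨ab, ⟨fun _ => by rw [pathGraph_adj]; decide, fun _ => k1.adj ab⟩⟩
      | exact ⟨bc, ⟨fun _ => by rw [pathGraph_adj]; decide, fun _ => k2.adj bc⟩⟩
      | exact ⟨cd, ⟨fun _ => by rw [pathGraph_adj]; decide, fun _ => k3.adj cd⟩⟩
      | exact ⟨(nR m1).1, ⟨fun h => absurd h (nR m1).2,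
          fun h => absurd h (by rw [pathGraph_adj]; decide)⟩⟩
      | exact ⟨(nR m2).1, ⟨fun h => absurd h (nR m2).2,
          fun h => absurd h (by rw [pathGraph_adj]; decide)⟩⟩
      | exact ⟨(nR m3).1, ⟨fun h => absurd h (nR m3).2,
          fun h => absurd h (by rw [pathGraph_adj]; decide)⟩⟩
  have He : ∀ i : Fin 4, e ≠ ![a, b, c, d] i ∧ ¬ G.Adj e (![a, b, c, d] i) := by
    intro i
    fin_cases i
    · exact nR m4
    · exact nR m5
    · exact nR m6
    · exact nR m7
  have hinj : ∀ i j : Fin 4, ![a, b, c, d] i = ![a, b, c, d] j → i = j := by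
    intro i j hij
    rcases lt_trichotomy i j with h1 | h1 | h1
    · exact absurd hij (H4 i j h1).1
    · exact h1
    · exact absurd hij.symm (H4 j i h1).1
  have hadj : ∀ i j : Fin 4, (G.Adj (![a, b, c, d] i) (![a, b, c, d] j) ↔ (pathGraph 4).Adj i j) := by
    intro i j
    rcases lt_trichotomy i j with h1 | h1 | h1
    · exact (H4 i j h1).2
    · subst h1; simp
    · rw [G.adj_comm, (pathGraph 4).adj_comm]; exact (H4 j i h1).2
  refine h.elim ⟨⟨Sum.elim ![a, b, c, d] (fun _ => e), ?_⟩, ?_⟩
  · rintro (i | i) (j | j) hij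
    · exact congrArg Sum.inl (hinj i j hij)
    · exact absurd hij.symm (He i).1
    · exact absurd hij (He j).1
    · exact congrArg Sum.inr (Subsingleton.elim i j)
  · rintro (i | i) (j | j)
    · show G.Adj (![a, b, c, d] i) (![a, b, c, d] j) ↔ _
      rw [sum_adj_inl]
      exact hadj i j
    · show G.Adj (![a, b, c, d] i) e ↔ _
      refine ⟨fun h1 => absurd h1.symm (He i).2, fun h1 => ?_⟩
      simp at h1
    · show G.Adj e (![a, b, c, d] j) ↔ _
      refine ⟨fun h1 => absurd h1 (He j).2, fun h1 => ?_⟩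
      simp at h1
    · show G.Adj e e ↔ _
      refine ⟨fun h1 => absurd rfl h1.ne, fun h1 => ?_⟩
      rw [Subsingleton.elim i j] at h1
      exact absurd rfl h1.ne

theorem facts (hP : IsEmpty ((pathGraph 4 ⊕g pathGraph 1) ↪g G)) (h4 : IsEmpty (cycleGraph 4 ↪g G))
    (six : Bool) (h6 : six = true → IsEmpty (cycleGraph 6 ↪g G)) : Facts (R G) six where
  symm := fun _ _ h => h.symm
  c4 := fun a b c d => f4 h4 a b c d
  pp := fun a b c d e => fp hP a b c d e
  c6 := fun hs a b c d e f => f6 (h6 hs) a b c d e f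

/-- adjacency in a cycle -/
theorem cyc_adj {n x y : ℕ} (hxy : x < y) (hy : y < n) :
    (cycleGraph n).Adj ⟨x, hxy.trans hy⟩ ⟨y, hy⟩ ↔ (y = x + 1 ∨ (x = 0 ∧ y = n - 1)) := by
  rw [cycleGraph_adj']
  have e1 : ((⟨x, hxy.trans hy⟩ : Fin n) - ⟨y, hy⟩).val = n - y + x := by
    rw [Fin.sub_def]
    show (n - y + x) % n = _
    exact Nat.mod_eq_of_lt (by omega)
  have e2 : ((⟨y, hy⟩ : Fin n) - ⟨x, hxy.trans hy⟩).val = y - x := by
    rw [Fin.sub_def]
    show (n - x + y) % n = _
    rw [show n - x + y = n + (y - x) by omega, Nat.add_mod_left]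
    exact Nat.mod_eq_of_lt (by omega)
  rw [e1, e2]
  omega

/-- an induced cycle of the graph without `K` as a function on the natural numbers -/
theorem hole_of {n : ℕ} (hn : 0 < n) {K : Set V} (e : cycleGraph n ↪g G.induce Kᶜ) :
    ∃ c : ℕ → V, Hole G c n ∧ ∀ x, c x ∉ K := by
  classical
  refine ⟨fun x => if h : x < n then (e ⟨x, h⟩).1 else (e ⟨0, hn⟩).1, ?_, ?_⟩
  · intro x y hxy hy
    beta_reduce
    rw [dif_pos (hxy.trans hy), dif_pos hy, ← cyc_adj hxy hy, ← e.map_adj_iff]
    unfold R
    have hne : (e ⟨x, hxy.trans hy⟩).1 ≠ (e ⟨y, hy⟩).1 := by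
      intro h
      have h1 := e.injective (Subtype.ext h)
      have h2 := Fin.mk.inj_iff.1 h1
      omega
    rw [comap_adj]
    exact ⟨fun h => h.resolve_left hne, fun h => Or.inr h⟩
  · intro x
    show (if h : x < n then (e ⟨x, h⟩).1 else (e ⟨0, hn⟩).1) ∉ K
    split_ifs with h
    · exact (e ⟨x, h⟩).2
    · exact (e ⟨0, hn⟩).2

theorem hole_of' {n : ℕ} (hn : 0 < n) (e : cycleGraph n ↪g G) : ∃ c : ℕ → V, Hole G c n := by
  classical
  refine ⟨fun x => if h : x < n then e ⟨x, h⟩ else e ⟨0, hn⟩, ?_⟩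
  intro x y hxy hy
  beta_reduce
  rw [dif_pos (hxy.trans hy), dif_pos hy, ← cyc_adj hxy hy, ← e.map_adj_iff]
  unfold R
  have hne : e ⟨x, hxy.trans hy⟩ ≠ e ⟨y, hy⟩ := by
    intro h
    have h1 := e.injective h
    have h2 := Fin.mk.inj_iff.1 h1
    omega
  exact ⟨fun h => h.resolve_left hne, fun h => Or.inr h⟩

/-- induced cycles have length five or six -/
theorem len {six : Bool} (hF : Facts (R G) six) {c : ℕ → V} {n : ℕ} (hn : 4 ≤ n)
    (h : Hole G c n) : n = 5 ∨ n = 6 := by
  by_contra hcon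
  push Not at hcon
  rcases eq_or_lt_of_le hn with h4 | h5
  · subst h4
    exact hF.c4 (c 0) (c 1) (c 2) (c 3) ((h 0 1 (by omega) (by omega)).2 (by omega))
      ((h 1 2 (by omega) (by omega)).2 (by omega)) ((h 2 3 (by omega) (by omega)).2 (by omega))
      (R.symm ((h 0 3 (by omega) (by omega)).2 (by omega)))
      (fun hh => absurd ((h 0 2 (by omega) (by omega)).1 hh) (by omega))
      (fun hh => absurd ((h 1 3 (by omega) (by omega)).1 hh) (by omega))
  · have h7 : 7 ≤ n := by omega
    exact hF.pp (c 0) (c 1) (c 2) (c 3) (c 5) ((h 0 1 (by omega) (by omega)).2 (by omega))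
      ((h 1 2 (by omega) (by omega)).2 (by omega)) ((h 2 3 (by omega) (by omega)).2 (by omega))
      (fun hh => absurd ((h 0 2 (by omega) (by omega)).1 hh) (by omega))
      (fun hh => absurd ((h 0 3 (by omega) (by omega)).1 hh) (by omega))
      (fun hh => absurd ((h 1 3 (by omega) (by omega)).1 hh) (by omega))
      (fun hh => absurd ((h 0 5 (by omega) (by omega)).1 hh.symm) (by omega))
      (fun hh => absurd ((h 1 5 (by omega) (by omega)).1 hh.symm) (by omega))
      (fun hh => absurd ((h 2 5 (by omega) (by omega)).1 hh.symm) (by omega))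
      (fun hh => absurd ((h 3 5 (by omega) (by omega)).1 hh.symm) (by omega))

/-- common neighbours -/
theorem mem_common {u v w : V} (huv : ¬ R G u v) :
    (R G w u ∧ R G w v) ↔ (G.Adj u w ∧ G.Adj v w) := by
  constructor
  · rintro ⟨h1, h2⟩
    refine ⟨(h1.adj ?_).symm, (h2.adj ?_).symm⟩
    · rintro rfl; exact huv h2
    · rintro rfl; exact huv h1.symm
  · rintro ⟨h1, h2⟩
    exact ⟨Or.inr h1.symm, Or.inr h2.symm⟩

theorem clique_common {six : Bool} (hF : Facts (R G) six) {u v : V} (huv : ¬ R G u v) :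
    G.IsClique {w | G.Adj u w ∧ G.Adj v w} := by
  rintro x ⟨hx1, hx2⟩ y ⟨hy1, hy2⟩ hxy
  by_contra hn
  exact hF.c4 x u y v (Or.inr hx1.symm) (Or.inr hy1) (Or.inr hy2.symm) (Or.inr hx2)
    (fun h => hn (h.adj hxy)) huv

theorem caseA {six : Bool} (hF : Facts (R G) six) {d h : ℕ → V} (hd : Hole G d 6)
    (hh : Hole G h 5) (hav : ∀ x, h x ∉ {w | G.Adj (d 5) w ∧ G.Adj (d 1) w}) : False := by
  have h51 : ¬ R G (d 5) (d 1) :=
    fun k => absurd ((hd 1 5 (by omega) (by omega)).1 k.symm) (by omega)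
  refine CaseA.main (R := R G) ⟨hF.symm, hF.c4, hF.pp, fun h => by simp [CaseA.D] at h⟩
    (fun n => if n < 6 then d n else h (n - 6)) ?_ ?_
  · intro b hb x y hxy hy
    simp only [CaseA.D, List.mem_cons, List.not_mem_nil, or_false] at hb
    rcases hb with rfl | rfl
    · have e1 : 0 + x < 6 := by dsimp at hy; omega
      have e2 : 0 + y < 6 := by dsimp at hy; omega
      dsimp only
      rw [if_pos e1, if_pos e2, Nat.zero_add, Nat.zero_add]
      exact hd x y hxy hy
    · have e1 : ¬ (6 + x < 6) := by omega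
      have e2 : ¬ (6 + y < 6) := by omega
      dsimp only
      rw [if_neg e1, if_neg e2, Nat.add_sub_cancel_left, Nat.add_sub_cancel_left]
      exact hh x y hxy hy
  · intro t ht x hx hc
    simp only [CaseA.D, List.mem_cons, List.not_mem_nil, or_false] at ht
    subst ht
    have e1 : ¬ (6 + x < 6) := by omega
    dsimp only at hc
    rw [if_neg e1, Nat.add_sub_cancel_left, if_pos (by norm_num), if_pos (by norm_num)] at hc
    exact hav x ((mem_common h51).1 hc)

theorem caseB {six : Bool} (hF : Facts (R G) six) {d h : ℕ → V} (hd : Hole G d 6)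
    (hh : Hole G h 6) (hav : ∀ x, h x ∉ {w | G.Adj (d 5) w ∧ G.Adj (d 1) w}) : False := by
  have h51 : ¬ R G (d 5) (d 1) :=
    fun k => absurd ((hd 1 5 (by omega) (by omega)).1 k.symm) (by omega)
  refine CaseB.main (R := R G) ⟨hF.symm, hF.c4, hF.pp, fun h => by simp [CaseB.D] at h⟩
    (fun n => if n < 6 then d n else h (n - 6)) ?_ ?_
  · intro b hb x y hxy hy
    simp only [CaseB.D, List.mem_cons, List.not_mem_nil, or_false] at hb
    rcases hb with rfl | rfl
    · have e1 : 0 + x < 6 := by dsimp at hy; omega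
      have e2 : 0 + y < 6 := by dsimp at hy; omega
      dsimp only
      rw [if_pos e1, if_pos e2, Nat.zero_add, Nat.zero_add]
      exact hd x y hxy hy
    · have e1 : ¬ (6 + x < 6) := by omega
      have e2 : ¬ (6 + y < 6) := by omega
      dsimp only
      rw [if_neg e1, if_neg e2, Nat.add_sub_cancel_left, Nat.add_sub_cancel_left]
      exact hh x y hxy hy
  · intro t ht x hx hc
    simp only [CaseB.D, List.mem_cons, List.not_mem_nil, or_false] at ht
    subst ht
    have e1 : ¬ (6 + x < 6) := by omega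
    dsimp only at hc
    rw [if_neg e1, Nat.add_sub_cancel_left, if_pos (by norm_num), if_pos (by norm_num)] at hc
    exact hav x ((mem_common h51).1 hc)

theorem caseC (hF : Facts (R G) true) {c h g : ℕ → V} (hc : Hole G c 5) (hh : Hole G h 5)
    (hg : Hole G g 5) (hav : ∀ x, h x ∉ {w | G.Adj (c 4) w ∧ G.Adj (c 1) w})
    (hag : ∀ x, g x ∉ {w | G.Adj (c 0) w ∧ G.Adj (c 2) w}) : False := by
  have h41 : ¬ R G (c 4) (c 1) :=
    fun k => absurd ((hc 1 4 (by omega) (by omega)).1 k.symm) (by omega)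
  have h02 : ¬ R G (c 0) (c 2) :=
    fun k => absurd ((hc 0 2 (by omega) (by omega)).1 k) (by omega)
  refine CaseC.main (R := R G) hF
    (fun n => if n < 5 then c n else if n < 10 then h (n - 5) else g (n - 10)) ?_ ?_
  · intro b hb x y hxy hy
    simp only [CaseC.D, List.mem_cons, List.not_mem_nil, or_false] at hb
    rcases hb with rfl | rfl | rfl
    · have e1 : 0 + x < 5 := by dsimp at hy; omega
      have e2 : 0 + y < 5 := by dsimp at hy; omega
      dsimp only
      rw [if_pos e1, if_pos e2, Nat.zero_add, Nat.zero_add]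
      exact hc x y hxy hy
    · have e0 : y < 5 := hy
      have e1 : ¬ (5 + x < 5) := by omega
      have e2 : ¬ (5 + y < 5) := by omega
      have e3 : 5 + x < 10 := by omega
      have e4 : 5 + y < 10 := by omega
      dsimp only
      rw [if_neg e1, if_neg e2, if_pos e3, if_pos e4, Nat.add_sub_cancel_left,
        Nat.add_sub_cancel_left]
      exact hh x y hxy hy
    · have e1 : ¬ (10 + x < 5) := by omega
      have e2 : ¬ (10 + y < 5) := by omega
      have e3 : ¬ (10 + x < 10) := by omega
      have e4 : ¬ (10 + y < 10) := by omega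
      dsimp only
      rw [if_neg e1, if_neg e2, if_neg e3, if_neg e4, Nat.add_sub_cancel_left,
        Nat.add_sub_cancel_left]
      exact hg x y hxy hy
  · intro t ht x hx hcc
    simp only [CaseC.D, List.mem_cons, List.not_mem_nil, or_false] at ht
    rcases ht with rfl | rfl
    · have e0 : x < 5 := hx
      have e1 : ¬ (5 + x < 5) := by omega
      have e3 : 5 + x < 10 := by omega
      dsimp only at hcc
      rw [if_neg e1, if_pos e3, Nat.add_sub_cancel_left, if_pos (by norm_num),
        if_pos (by norm_num)] at hcc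
      exact hav x ((mem_common h41).1 hcc)
    · have e1 : ¬ (10 + x < 5) := by omega
      have e3 : ¬ (10 + x < 10) := by omega
      dsimp only at hcc
      rw [if_neg e1, if_neg e3, Nat.add_sub_cancel_left, if_pos (by norm_num),
        if_pos (by norm_num)] at hcc
      exact hag x ((mem_common h02).1 hcc)

end

/-- **Answer to Q1: yes.** Let `G` be a graph (finite or infinite) without induced subgraphs
isomorphic to `P4 + P1` (`pathGraph n` is the path on `n` vertices, `⊕g` the disjoint union) or to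
`C4`. Then there is a clique `K`, empty or the set of the common neighbours of two different
nonadjacent vertices, such that `G - K` is chordal: it has no induced cycle of length at least
four. -/
theorem result {V : Type u} (G : SimpleGraph V)
    (hP : IsEmpty ((pathGraph 4 ⊕g pathGraph 1) ↪g G)) (hC : IsEmpty (cycleGraph 4 ↪g G)) :
    ∃ K : Set V, G.IsClique K ∧
      (K = ∅ ∨ ∃ u v, u ≠ v ∧ ¬ G.Adj u v ∧ K = {w | G.Adj u w ∧ G.Adj v w}) ∧
      ∀ n, 4 ≤ n → IsEmpty (cycleGraph n ↪g G.induce Kᶜ) := by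
  classical
  by_cases h6 : IsEmpty (cycleGraph 6 ↪g G)
  · have hF : Facts (R G) true := facts hP hC true (fun _ => h6)
    have toG : ∀ {n : ℕ} {K : Set V}, (cycleGraph n ↪g G.induce Kᶜ) → (cycleGraph n ↪g G) :=
      fun e => (Embedding.induce _).comp e
    by_cases h5 : IsEmpty (cycleGraph 5 ↪g G)
    · refine ⟨∅, by simp, Or.inl rfl, fun n hn => ⟨fun e => ?_⟩⟩
      obtain ⟨c, hc, -⟩ := hole_of (by omega) e
      rcases len hF hn hc with rfl | rfl
      · exact h5.elim (toG e)
      · exact h6.elim (toG e)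
    · rw [not_isEmpty_iff] at h5
      obtain ⟨e⟩ := h5
      obtain ⟨c, hc⟩ := hole_of' (by omega) e
      have h41 : ¬ R G (c 4) (c 1) :=
        fun k => absurd ((hc 1 4 (by omega) (by omega)).1 k.symm) (by omega)
      have h02 : ¬ R G (c 0) (c 2) :=
        fun k => absurd ((hc 0 2 (by omega) (by omega)).1 k) (by omega)
      by_cases hK : ∀ n, 4 ≤ n →
          IsEmpty (cycleGraph n ↪g G.induce {w | G.Adj (c 4) w ∧ G.Adj (c 1) w}ᶜ)
      · exact ⟨_, clique_common hF h41, Or.inr ⟨_, _, (nR h41).1, (nR h41).2, rfl⟩, hK⟩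
      · push Not at hK
        obtain ⟨n, hn, hne⟩ := hK
        obtain ⟨e'⟩ := hne
        obtain ⟨h, hh, hav⟩ := hole_of (by omega) e'
        have hn5 : n = 5 := (len hF hn hh).resolve_right (by rintro rfl; exact h6.elim (toG e'))
        subst hn5
        refine ⟨_, clique_common hF h02, Or.inr ⟨_, _, (nR h02).1, (nR h02).2, rfl⟩,
          fun m hm => ⟨fun e'' => ?_⟩⟩
        obtain ⟨g, hg, hag⟩ := hole_of (by omega) e''
        have hm5 : m = 5 := (len hF hm hg).resolve_right (by rintro rfl; exact h6.elim (toG e''))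
        subst hm5
        exact caseC hF hc hh hg hav hag
  · rw [not_isEmpty_iff] at h6
    obtain ⟨e⟩ := h6
    have hF : Facts (R G) false := facts hP hC false (fun h => by simp at h)
    obtain ⟨d, hd⟩ := hole_of' (by omega) e
    have h51 : ¬ R G (d 5) (d 1) :=
      fun k => absurd ((hd 1 5 (by omega) (by omega)).1 k.symm) (by omega)
    refine ⟨_, clique_common hF h51, Or.inr ⟨_, _, (nR h51).1, (nR h51).2, rfl⟩,
      fun n hn => ⟨fun e' => ?_⟩⟩
    obtain ⟨h, hh, hav⟩ := hole_of (by omega) e'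
    rcases len hF hn hh with rfl | rfl
    · exact caseA hF hd hh hav
    · exact caseB hF hd hh hav

end Pool.Agent.Results.MP_e9ad42_co.ChordalDeletionClique
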